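import Pool.Agent.V11166.Steinitz

/-!
# The Helly number `2d + 1` for `k`-almost-neighborly sets
-/

open Set Pool.Agent.V11166.Steinitz

namespace Pool.Agent.Results.MP_aae461_co.HellyNumber

/-- A finite set `A` of points of `ℝ^d` is `k`-almost-neighborly if the convex hull of every
`k`-element subset of `A` lies in the boundary (in `ℝ^d`) of the convex hull of `A`. -/
def AlmostNeighborly {d : ℕ} (k : ℕ) (A : Finset (EuclideanSpace ℝ (Fin d))) : Prop :=
  ∀ B ⊆ A, B.card = k →
    convexHull ℝ (B : Set (EuclideanSpace ℝ (Fin d))) ⊆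
      frontier (convexHull ℝ (A : Set (EuclideanSpace ℝ (Fin d))))

lemma mem_frontier_iff {d : ℕ} {A : Finset (EuclideanSpace ℝ (Fin d))}
    {x : EuclideanSpace ℝ (Fin d)} :
    x ∈ frontier (convexHull ℝ (A : Set (EuclideanSpace ℝ (Fin d)))) ↔
      x ∈ convexHull ℝ (A : Set (EuclideanSpace ℝ (Fin d))) ∧
      x ∉ interior (convexHull ℝ (A : Set (EuclideanSpace ℝ (Fin d)))) := by
  have hcl : IsClosed (convexHull ℝ (A : Set (EuclideanSpace ℝ (Fin d)))) :=
    (A.finite_toSet.isCompact_convexHull ℝ).isClosed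
  rw [frontier, hcl.closure_eq, mem_sdiff]

/-- **Main result.** For all `d` and all `k ≤ 2d + 1`, a finite set `A` of points of `ℝ^d` is
`k`-almost-neighborly if and only if every subset of `A` with at most `2d + 1` points is. -/
theorem result : ∀ d k : ℕ, k ≤ 2 * d + 1 → ∀ A : Finset (EuclideanSpace ℝ (Fin d)),
    AlmostNeighborly k A ↔ ∀ B ⊆ A, B.card ≤ 2 * d + 1 → AlmostNeighborly k B := by
  classical
  intro d k hk A
  constructor
  · intro h B hBA _ C hCB hCk x hx
    rw [mem_frontier_iff]
    refine ⟨convexHull_mono (by exact_mod_cast hCB) hx, ?_⟩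
    intro hint
    have h1 := (mem_frontier_iff.1 (h C (hCB.trans hBA) hCk hx)).2
    exact h1 (interior_mono (convexHull_mono (by exact_mod_cast hBA)) hint)
  · intro h B hBA hBk x hx
    rw [mem_frontier_iff]
    refine ⟨convexHull_mono (by exact_mod_cast hBA) hx, ?_⟩
    intro hint
    obtain ⟨C, hCA, B', hB'B, hB'C, hCcard, hxB', hxC⟩ := reduction hint hBA hx
    rw [finrank_euclideanSpace_fin] at hCcard
    -- enlarge `C`
    obtain ⟨C', hCC', hC'A, hC'card⟩ := Finset.exists_subsuperset_card_eq hCA
      (le_max_left C.card k) (max_le (Finset.card_le_card hCA)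
        (hBk ▸ Finset.card_le_card hBA))
    have hC'le : C'.card ≤ 2 * d + 1 := by
      rw [hC'card]; exact max_le hCcard hk
    obtain ⟨B'', hB'B'', hB''C', hB''card⟩ := Finset.exists_subsuperset_card_eq
      (hB'C.trans hCC') (hBk ▸ Finset.card_le_card hB'B) (hC'card ▸ le_max_right C.card k)
    have h1 := h C' hC'A hC'le B'' hB''C' hB''card
      (convexHull_mono (by exact_mod_cast hB'B'') hxB')
    exact (mem_frontier_iff.1 h1).2 (interior_mono (convexHull_mono (by exact_mod_cast hCC')) hxC)

end Pool.Agent.Results.MP_aae461_co.HellyNumber
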